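import Pool.Agent.Helper41.SQC.Goals
import Pool.Agent.Helper29.SQ.KW

/-!
Project SQ stage C (MP_bb32d1_al), packet KWT (helper79): weights of the root vectors of a
`GlT` family.
-/

set_option autoImplicit false

namespace Pool.Agent.Helper79.SQC

open Pool.Agent.Helper19.SQ Pool.Agent.Helper29.SQ Pool.Agent.Helper41.SQC

theorem c_kwt : S_KWT := by
  intro R _ _ N l q t t' E F K hP h p i j hij
  have hl : 1 ≤ l := le_trans (by norm_num) hP.h3
  have hl0 : l ≠ 0 := by omega
  have hq : q ≠ 0 := hP.prim.ne_zero hl0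
  obtain ⟨k1, k2, k3, k4, k5, k6⟩ := sKI R l K hl h.K_comm h.K_pow
  have hw : ∀ i, Wt (K p) (E i) (q ^ ((fun k => if p = k then (1 : ℤ) else 0) i
      - (fun k => if p = k then (1 : ℤ) else 0) (i + 1))) := by
    intro i
    have := h.KE p i
    rw [pr_eq_ew] at this
    exact this
  have hw' : ∀ i, Wt (K p) (F i) (q ^ ((fun k => if p = k then (-1 : ℤ) else 0) i
      - (fun k => if p = k then (-1 : ℤ) else 0) (i + 1))) := by
    intro i
    have := h.KF p i
    rw [pr_eq_ew] at this
    have e : (fun k => if p = k then (-1 : ℤ) else 0) i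
        - (fun k => if p = k then (-1 : ℤ) else 0) (i + 1)
        = -((if p = i then (1 : ℤ) else 0) - (if p = i + 1 then 1 else 0)) := by
      simp only
      split_ifs <;> ring
    rw [e]
    exact this
  obtain ⟨d, rfl⟩ := Nat.exists_eq_add_of_lt hij
  have w1 := wt_rvA hq _ hw d i
  have w2 := wt_rvoA hq _ hw' d i
  have e2 : (fun k => if p = k then (-1 : ℤ) else 0) i
      - (fun k => if p = k then (-1 : ℤ) else 0) (i + d + 1) = -ew p i (i + d + 1) := by
    unfold ew
    simp only
    split_ifs <;> ring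
  rw [e2] at w2
  rw [rv_eq_rvA, rvo_eq_rvoA]
  refine ⟨⟨w1, ?_⟩, ⟨w2, ?_⟩, k1 p, fun r => k3 p r⟩
  · have := w1.inv (zpow_ne_zero _ hq) (k1 p) (k2 p)
    rw [← zpow_neg] at this
    exact this
  · have := w2.inv (zpow_ne_zero _ hq) (k1 p) (k2 p)
    rw [← zpow_neg, neg_neg] at this
    exact this

end Pool.Agent.Helper79.SQC
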